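import Mathlib

set_option autoImplicit false

/-! # Angles of triangles of mutually tangent circles -/

namespace Pool.Agent.N828.DS

open Real

/-- The angle at the centre of the circle of radius `a` in the triangle spanned by the centres of
three mutually externally tangent circles of radii `a`, `b`, `c` (sides `a+b`, `a+c`, `b+c`). -/
noncomputable def ang (a b c : ℝ) : ℝ :=
  arccos (((a + b) ^ 2 + (a + c) ^ 2 - (b + c) ^ 2) / (2 * (a + b) * (a + c)))

/-- sum of the radii, in logarithmic coordinates -/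
noncomputable def SS (x y z : ℝ) : ℝ := exp x + exp y + exp z

lemma SS_pos (x y z : ℝ) : 0 < SS x y z := by unfold SS; positivity

/-- tangent of the half angle -/
noncomputable def TT (x y z : ℝ) : ℝ := exp ((y + z - x - log (SS x y z)) / 2)

/-- radius of the inscribed circle -/
noncomputable def rho (x y z : ℝ) : ℝ := exp ((x + y + z - log (SS x y z)) / 2)

lemma TT_sq (x y z : ℝ) : TT x y z ^ 2 = exp y * exp z / (exp x * SS x y z) := by
  unfold TT
  rw [← exp_nat_mul]
  have : ((2:ℕ):ℝ) * ((y + z - x - log (SS x y z)) / 2) = (y + z) - (x + log (SS x y z)) := by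
    push_cast; ring
  rw [this, exp_sub, exp_add, exp_add, exp_log (SS_pos x y z)]

lemma rho_sq (x y z : ℝ) : rho x y z ^ 2 = exp x * exp y * exp z / SS x y z := by
  unfold rho
  rw [← exp_nat_mul]
  have : ((2:ℕ):ℝ) * ((x + y + z - log (SS x y z)) / 2) = (x + y + z) - log (SS x y z) := by
    push_cast; ring
  rw [this, exp_sub, exp_add, exp_add, exp_log (SS_pos x y z)]

lemma TT_eq (x y z : ℝ) : TT x y z = rho x y z / exp x := by
  unfold TT rho
  rw [← exp_sub]
  congr 1
  ring

/-- the angle in logarithmic coordinates -/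
noncomputable def AA (x y z : ℝ) : ℝ := 2 * arctan (TT x y z)

lemma one_add_TT_sq (x y z : ℝ) :
    1 + TT x y z ^ 2 = (exp x + exp y) * (exp x + exp z) / (exp x * SS x y z) := by
  rw [TT_sq]
  have h1 := exp_pos x
  have h2 := SS_pos x y z
  field_simp
  unfold SS
  ring

lemma ang_exp (x y z : ℝ) : ang (exp x) (exp y) (exp z) = AA x y z := by
  unfold ang AA
  have hx := exp_pos x
  have hy := exp_pos y
  have hz := exp_pos z
  have hS := SS_pos x y z
  have hT : 0 < TT x y z := exp_pos _
  have h0 : 0 ≤ 2 * arctan (TT x y z) := by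
    have := arctan_pos.mpr hT
    linarith
  have h1 : 2 * arctan (TT x y z) ≤ π := by
    have := arctan_lt_pi_div_two (TT x y z)
    linarith
  rw [← arccos_cos h0 h1]
  congr 1
  rw [cos_two_mul, cos_sq_arctan, one_add_TT_sq]
  field_simp
  unfold SS
  ring

lemma AA_hasDerivAt (x y z X Y Z t : ℝ) :
    HasDerivAt (fun t => AA (x + t * X) (y + t * Y) (z + t * Z))
      (rho (x + t * X) (y + t * Y) (z + t * Z) / (exp (x + t * X) + exp (y + t * Y)) * (Y - X)
        + rho (x + t * X) (y + t * Y) (z + t * Z) / (exp (x + t * X) + exp (z + t * Z)) * (Z - X))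
      t := by
  have lin : ∀ a b : ℝ, HasDerivAt (fun t : ℝ => a + t * b) b t := by
    intro a b
    simpa using ((hasDerivAt_id t).mul_const b).const_add a
  have hx := lin x X
  have hy := lin y Y
  have hz := lin z Z
  have hS : HasDerivAt (fun t => SS (x + t * X) (y + t * Y) (z + t * Z))
      (exp (x + t * X) * X + exp (y + t * Y) * Y + exp (z + t * Z) * Z) t := by
    unfold SS
    exact (hx.exp.add hy.exp).add hz.exp
  have hSp := SS_pos (x + t * X) (y + t * Y) (z + t * Z)
  have hL := hS.log hSp.ne'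
  have hT : HasDerivAt (fun t => TT (x + t * X) (y + t * Y) (z + t * Z))
      (TT (x + t * X) (y + t * Y) (z + t * Z) * ((Y + Z - X -
        (exp (x + t * X) * X + exp (y + t * Y) * Y + exp (z + t * Z) * Z) /
          SS (x + t * X) (y + t * Y) (z + t * Z)) / 2)) t := by
    unfold TT
    exact ((((hy.add hz).sub hx).sub hL).div_const 2).exp
  have hA := (hT.arctan).const_mul 2
  unfold AA
  refine hA.congr_deriv ?_
  rw [one_add_TT_sq, TT_eq]
  have h1 := exp_pos (x + t * X)
  have h2 := exp_pos (y + t * Y)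
  have h3 := exp_pos (z + t * Z)
  have hSS : SS (x + t * X) (y + t * Y) (z + t * Z) =
    exp (x + t * X) + exp (y + t * Y) + exp (z + t * Z) := rfl
  rw [hSS]
  generalize rho (x + t * X) (y + t * Y) (z + t * Z) = r
  generalize exp (x + t * X) = a at *
  generalize exp (y + t * Y) = b at *
  generalize exp (z + t * Z) = c at *
  have h4 : a + b ≠ 0 := by positivity
  have h5 : a + c ≠ 0 := by positivity
  have h6 : a + b + c ≠ 0 := by positivity
  field_simp
  ring

/-- bounds for the conductances -/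
lemma cond_le (x y z : ℝ) : rho x y z / (exp x + exp y) ≤ 1 / 2 := by
  have hx := exp_pos x
  have hy := exp_pos y
  have hz := exp_pos z
  have hS := SS_pos x y z
  have hr : 0 < rho x y z := exp_pos _
  rw [div_le_iff₀ (by positivity)]
  have h1 : rho x y z ^ 2 ≤ (1 / 2 * (exp x + exp y)) ^ 2 := by
    rw [rho_sq, div_le_iff₀ hS]
    have h2 : exp x * exp y ≤ (1 / 2 * (exp x + exp y)) ^ 2 := by nlinarith [sq_nonneg (exp x - exp y)]
    have h3 : exp z ≤ SS x y z := by unfold SS; linarith
    calc exp x * exp y * exp z ≤ (1 / 2 * (exp x + exp y)) ^ 2 * exp z := by gcongr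
      _ ≤ _ := by gcongr
  exact (pow_le_pow_iff_left₀ hr.le (by positivity) (by norm_num)).mp h1

lemma cond_ge (K x y z : ℝ) (h1 : |x - y| ≤ K) (h2 : |x - z| ≤ K) (h3 : |y - z| ≤ K) :
    exp (-K) / 4 ≤ rho x y z / (exp x + exp y) := by
  have hx := exp_pos x
  have hy := exp_pos y
  have hz := exp_pos z
  have hS := SS_pos x y z
  have hr : 0 < rho x y z := exp_pos _
  rw [le_div_iff₀ (by positivity)]
  have e1 : exp x ≤ exp K * exp y := by
    rw [← exp_add]; apply exp_le_exp.mpr; linarith [(abs_le.mp h1).2]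
  have e1' : exp y ≤ exp K * exp x := by
    rw [← exp_add]; apply exp_le_exp.mpr; linarith [(abs_le.mp h1).1]
  have e2 : exp x ≤ exp K * exp z := by
    rw [← exp_add]; apply exp_le_exp.mpr; linarith [(abs_le.mp h2).2]
  have e3 : exp y ≤ exp K * exp z := by
    rw [← exp_add]; apply exp_le_exp.mpr; linarith [(abs_le.mp h3).2]
  have hK0 : 0 ≤ K := (abs_nonneg _).trans h1
  have hK : 1 ≤ exp K := one_le_exp hK0
  have hKp := exp_pos K
  have key : (exp (-K) / 4 * (exp x + exp y)) ^ 2 ≤ rho x y z ^ 2 := by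
    rw [rho_sq, le_div_iff₀ hS, exp_neg]
    have hSz : SS x y z ≤ 3 * exp K * exp z := by unfold SS; nlinarith
    have hsum : (exp x + exp y) ^ 2 ≤ 4 * exp K * (exp x * exp y) := by
      have a1 : exp x * exp x ≤ exp K * exp y * exp x := by gcongr
      have a2 : exp y * exp y ≤ exp K * exp x * exp y := by gcongr
      nlinarith [mul_pos hx hy]
    have : ((exp K)⁻¹ / 4 * (exp x + exp y)) ^ 2 * SS x y z
        ≤ ((exp K)⁻¹ ^ 2 / 16 * (4 * exp K * (exp x * exp y))) * (3 * exp K * exp z) := by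
      have : ((exp K)⁻¹ / 4 * (exp x + exp y)) ^ 2 = (exp K)⁻¹ ^ 2 / 16 * (exp x + exp y) ^ 2 := by
        ring
      rw [this]
      gcongr
    refine this.trans ?_
    have e : ((exp K)⁻¹ ^ 2 / 16 * (4 * exp K * (exp x * exp y))) * (3 * exp K * exp z)
        = 3 / 4 * (exp x * exp y * exp z) := by
      field_simp
      ring
    rw [e]
    nlinarith [mul_pos (mul_pos hx hy) hz]
  exact (pow_le_pow_iff_left₀ (by positivity) hr.le (by norm_num)).mp key

lemma rho_comm12 (x y z : ℝ) : rho x y z = rho y x z := by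
  unfold rho SS
  rw [show y + x + z = x + y + z by ring, show exp y + exp x + exp z = exp x + exp y + exp z by ring]

lemma rho_comm23 (x y z : ℝ) : rho x y z = rho x z y := by
  unfold rho SS
  rw [show x + z + y = x + y + z by ring, show exp x + exp z + exp y = exp x + exp y + exp z by ring]

lemma AA_symm (x y z : ℝ) : AA x y z = AA x z y := by
  unfold AA TT SS
  rw [show z + y - x = y + z - x by ring,
    show exp x + exp z + exp y = exp x + exp y + exp z by ring]

/-- Mean value theorem for the three angles of a triangle -/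
lemma tri_mvt (K x y z X Y Z p q s : ℝ)
    (a1 : |x - y| ≤ K) (a2 : |x - z| ≤ K) (a3 : |y - z| ≤ K)
    (b1 : |x + X - (y + Y)| ≤ K) (b2 : |x + X - (z + Z)| ≤ K) (b3 : |y + Y - (z + Z)| ≤ K) :
    ∃ c₁ c₂ c₃ : ℝ, (exp (-K) / 4 ≤ c₁ ∧ c₁ ≤ 1 / 2) ∧ (exp (-K) / 4 ≤ c₂ ∧ c₂ ≤ 1 / 2) ∧
      (exp (-K) / 4 ≤ c₃ ∧ c₃ ≤ 1 / 2) ∧
      p * (AA (x + X) (y + Y) (z + Z) - AA x y z) + q * (AA (y + Y) (z + Z) (x + X) - AA y z x)
        + s * (AA (z + Z) (x + X) (y + Y) - AA z x y) =
      -(c₁ * ((p - q) * (X - Y)) + c₂ * ((q - s) * (Y - Z)) + c₃ * ((s - p) * (Z - X))) := by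
  set F : ℝ → ℝ := fun t => p * AA (x + t * X) (y + t * Y) (z + t * Z)
    + q * AA (y + t * Y) (z + t * Z) (x + t * X) + s * AA (z + t * Z) (x + t * X) (y + t * Y) with hF
  set F' : ℝ → ℝ := fun t =>
    p * (rho (x + t * X) (y + t * Y) (z + t * Z) / (exp (x + t * X) + exp (y + t * Y)) * (Y - X)
        + rho (x + t * X) (y + t * Y) (z + t * Z) / (exp (x + t * X) + exp (z + t * Z)) * (Z - X))
    + q * (rho (y + t * Y) (z + t * Z) (x + t * X) / (exp (y + t * Y) + exp (z + t * Z)) * (Z - Y)
        + rho (y + t * Y) (z + t * Z) (x + t * X) / (exp (y + t * Y) + exp (x + t * X)) * (X - Y))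
    + s * (rho (z + t * Z) (x + t * X) (y + t * Y) / (exp (z + t * Z) + exp (x + t * X)) * (X - Z)
        + rho (z + t * Z) (x + t * X) (y + t * Y) / (exp (z + t * Z) + exp (y + t * Y)) * (Y - Z))
    with hF'
  have hder : ∀ t, HasDerivAt F (F' t) t := fun t =>
    (((AA_hasDerivAt x y z X Y Z t).const_mul p).add
      ((AA_hasDerivAt y z x Y Z X t).const_mul q)).add ((AA_hasDerivAt z x y Z X Y t).const_mul s)
  obtain ⟨t, ht, hslope⟩ := exists_hasDerivAt_eq_slope F F' (by norm_num : (0:ℝ) < 1)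
    (fun t _ => (hder t).continuousAt.continuousWithinAt) (fun t _ => hder t)
  have conv : ∀ a b A B : ℝ, |a - b| ≤ K → |a + A - (b + B)| ≤ K → |a + t * A - (b + t * B)| ≤ K := by
    intro a b A B h1 h2
    have e : a + t * A - (b + t * B) = (1 - t) * (a - b) + t * (a + A - (b + B)) := by ring
    rw [e]
    calc |(1 - t) * (a - b) + t * (a + A - (b + B))|
        ≤ |(1 - t) * (a - b)| + |t * (a + A - (b + B))| := abs_add_le _ _
      _ = (1 - t) * |a - b| + t * |a + A - (b + B)| := by
          rw [abs_mul, abs_mul, abs_of_pos (by linarith [ht.2] : (0:ℝ) < 1 - t), abs_of_pos ht.1]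
      _ ≤ (1 - t) * K + t * K := by
          have := ht.1
          have : 0 < 1 - t := by linarith [ht.2]
          gcongr
      _ = K := by ring
  have k1 := conv x y X Y a1 b1
  have k2 := conv x z X Z a2 b2
  have k3 := conv y z Y Z a3 b3
  have k1' : |y + t * Y - (x + t * X)| ≤ K := by rw [abs_sub_comm]; exact k1
  have k2' : |z + t * Z - (x + t * X)| ≤ K := by rw [abs_sub_comm]; exact k2
  have k3' : |z + t * Z - (y + t * Y)| ≤ K := by rw [abs_sub_comm]; exact k3
  refine ⟨rho (x + t * X) (y + t * Y) (z + t * Z) / (exp (x + t * X) + exp (y + t * Y)),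
    rho (y + t * Y) (z + t * Z) (x + t * X) / (exp (y + t * Y) + exp (z + t * Z)),
    rho (z + t * Z) (x + t * X) (y + t * Y) / (exp (z + t * Z) + exp (x + t * X)),
    ⟨cond_ge K _ _ _ k1 k2 k3, cond_le _ _ _⟩, ⟨cond_ge K _ _ _ k3 k1' k2', cond_le _ _ _⟩,
    ⟨cond_ge K _ _ _ k2' k3' k1, cond_le _ _ _⟩, ?_⟩
  have h0 : F 0 = p * AA x y z + q * AA y z x + s * AA z x y := by simp [hF]
  have h1 : F 1 = p * AA (x + X) (y + Y) (z + Z) + q * AA (y + Y) (z + Z) (x + X)
      + s * AA (z + Z) (x + X) (y + Y) := by simp [hF]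
  rw [h0, h1] at hslope
  simp only [hF'] at hslope
  have r1 : rho (y + t * Y) (z + t * Z) (x + t * X) = rho (x + t * X) (y + t * Y) (z + t * Z) := by
    rw [rho_comm23, rho_comm12]
  have r2 : rho (z + t * Z) (x + t * X) (y + t * Y) = rho (x + t * X) (y + t * Y) (z + t * Z) := by
    rw [rho_comm12, rho_comm23]
  rw [r1, r2] at hslope ⊢
  have hp1 := exp_pos (x + t * X)
  have hp2 := exp_pos (y + t * Y)
  have hp3 := exp_pos (z + t * Z)
  rw [add_comm (exp (y + t * Y)) (exp (x + t * X)), add_comm (exp (z + t * Z)) (exp (y + t * Y)),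
    add_comm (exp (x + t * X)) (exp (z + t * Z))] at hslope
  linear_combination -hslope

end Pool.Agent.N828.DS
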