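import Pool.Agent.N828.DS.Angle

set_option autoImplicit false

/-! # The energy identity -/

namespace Pool.Agent.N828.DS

open Real Finset

/-- the six directions of the hexagonal lattice -/
def dir : Fin 6 → ℤ × ℤ := ![(1, 0), (0, 1), (-1, 1), (-1, 0), (0, -1), (1, -1)]

/-- angle sum in logarithmic coordinates -/
noncomputable def th (r : ℤ × ℤ → ℝ) (v : ℤ × ℤ) : ℝ :=
  ∑ i : Fin 6, AA (r v) (r (v + dir i)) (r (v + dir (i + 1)))

/-- change of the angle at `p` of the triangle `p q s` -/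
noncomputable def dA (r u : ℤ × ℤ → ℝ) (p q s : ℤ × ℤ) : ℝ :=
  AA (r p + u p) (r q + u q) (r s + u s) - AA (r p) (r q) (r s)

/-- contribution of the triangle `p q s` -/
noncomputable def WW (r u φ : ℤ × ℤ → ℝ) (p q s : ℤ × ℤ) : ℝ :=
  φ p * dA r u p q s + φ q * dA r u q s p + φ s * dA r u s p q

/-- contribution of the two triangles of the parallelogram at `v` -/
noncomputable def W2 (r u φ : ℤ × ℤ → ℝ) (v : ℤ × ℤ) : ℝ :=
  WW r u φ v (v + (1, 0)) (v + (0, 1)) + WW r u φ (v + (1, 0)) (v + (1, 1)) (v + (0, 1))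

lemma tsum_W2 (r u φ : ℤ × ℤ → ℝ) (hφ : (Function.support φ).Finite)
    (h : ∀ v, th (fun w => r w + u w) v = th r v) : ∑' v, W2 r u φ v = 0 := by
  set F : Fin 6 → ℤ × ℤ → ℝ := fun i v => φ v * dA r u v (v + dir i) (v + dir (i + 1)) with hF
  have hsupp : ∀ i, (Function.support (F i)).Finite := fun i => by
    refine hφ.subset ?_
    intro v hv
    simp only [hF, Function.mem_support] at hv ⊢
    exact left_ne_zero_of_mul hv
  have hs : ∀ i, Summable (F i) := fun i => summable_of_hasFiniteSupport (hsupp i)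
  have hshift : ∀ i (e : ℤ × ℤ), Summable (fun v => F i (v + e)) := fun i e =>
    (Equiv.addRight e).summable_iff.mpr (hs i)
  have heq : ∀ i (e : ℤ × ℤ), ∑' v, F i (v + e) = ∑' v, F i v := fun i e =>
    (Equiv.addRight e).tsum_eq (F i)
  have h0 : ∀ v, ∑ i, F i v = 0 := by
    intro v
    have h1 : ∑ i, F i v = φ v * (th (fun w => r w + u w) v - th r v) := by
      simp only [hF, th, dA]
      rw [← mul_sum, sum_sub_distrib]
    rw [h1, h v]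
    ring
  have hT : ∑ i, ∑' v, F i v = 0 := by
    rw [← Summable.tsum_finsetSum (fun i _ => hs i)]
    simp only [h0, tsum_zero]
  have key : ∀ v, W2 r u φ v = F 0 v + F 2 (v + (1, 0)) + F 4 (v + (0, 1)) +
      (F 1 (v + (1, 0)) + F 3 (v + (1, 1)) + F 5 (v + (0, 1))) := by
    rintro ⟨n, m⟩
    simp [W2, WW, hF, dir, add_assoc]
  have s1 := hs 0
  have s2 := hshift 2 (1, 0)
  have s3 := hshift 4 (0, 1)
  have s4 := hshift 1 (1, 0)
  have s5 := hshift 3 (1, 1)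
  have s6 := hshift 5 (0, 1)
  simp_rw [key]
  rw [((s1.add s2).add s3).tsum_add ((s4.add s5).add s6), (s1.add s2).tsum_add s3,
    s1.tsum_add s2, (s4.add s5).tsum_add s6, s4.tsum_add s5, heq, heq, heq, heq, heq]
  rw [Fin.sum_univ_six] at hT
  linarith


/-- sum over the six sides of the two triangles at `v` -/
def six (f : ℤ × ℤ → ℤ × ℤ → ℝ) (v : ℤ × ℤ) : ℝ :=
  (f v (v + (1, 0)) + f (v + (1, 0)) (v + (0, 1)) + f (v + (0, 1)) v) +
    (f (v + (1, 0)) (v + (1, 1)) + f (v + (1, 1)) (v + (0, 1)) + f (v + (0, 1)) (v + (1, 0)))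

def Hh (h u : ℤ × ℤ → ℝ) (p q : ℤ × ℤ) : ℝ := (h p ^ 2 + h q ^ 2) * (u p - u q) ^ 2

def Rr (h u : ℤ × ℤ → ℝ) (p q : ℤ × ℤ) : ℝ := |h p - h q| * (h p + h q) * |u p - u q|

def Tt (h : ℤ × ℤ → ℝ) (p q : ℤ × ℤ) : ℝ := (h p - h q) ^ 2

def Dd (u : ℤ × ℤ → ℝ) (p q : ℤ × ℤ) : ℝ := (u p - u q) ^ 2

lemma pair_ineq (c c₀ B hp hq x y : ℝ) (h0 : 0 < c₀) (h1 : c₀ ≤ c) (h2 : c ≤ 1 / 2)
    (p0 : 0 ≤ hp) (q0 : 0 ≤ hq) (hx : |x| ≤ B) (hy : |y| ≤ B) :
    c₀ / 2 * ((hp ^ 2 + hq ^ 2) * (x - y) ^ 2) - B / 2 * (|hp - hq| * (hp + hq) * |x - y|) ≤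
      c * ((hp ^ 2 * x - hq ^ 2 * y) * (x - y)) := by
  have e : (hp ^ 2 * x - hq ^ 2 * y) * (x - y) = 1 / 2 * ((hp ^ 2 + hq ^ 2) * (x - y) ^ 2) +
      1 / 2 * (((hp - hq) * (hp + hq)) * ((x + y) * (x - y))) := by ring
  rw [e, mul_add]
  have a1 : c₀ / 2 * ((hp ^ 2 + hq ^ 2) * (x - y) ^ 2) ≤
      c * (1 / 2 * ((hp ^ 2 + hq ^ 2) * (x - y) ^ 2)) := by
    have : 0 ≤ (hp ^ 2 + hq ^ 2) * (x - y) ^ 2 := by positivity
    nlinarith
  have hB : 0 ≤ B := (abs_nonneg x).trans hx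
  have a2 : |c * (1 / 2 * (((hp - hq) * (hp + hq)) * ((x + y) * (x - y))))| ≤
      B / 2 * (|hp - hq| * (hp + hq) * |x - y|) := by
    have hc : 0 < c := h0.trans_le h1
    have hxy : |x + y| ≤ 2 * B := (abs_add_le x y).trans (by linarith)
    rw [abs_mul, abs_mul, abs_mul, abs_mul, abs_mul, abs_of_pos hc, abs_of_pos (by norm_num : (0:ℝ) < 1 / 2),
      abs_of_nonneg (by linarith : 0 ≤ hp + hq)]
    have h3 : 0 ≤ |hp - hq| * (hp + hq) * |x - y| := by positivity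
    calc c * (1 / 2 * (|hp - hq| * (hp + hq) * (|x + y| * |x - y|)))
        = c * (1 / 2 * (|x + y| * (|hp - hq| * (hp + hq) * |x - y|))) := by ring
      _ ≤ 1 / 2 * (1 / 2 * (2 * B * (|hp - hq| * (hp + hq) * |x - y|))) := by gcongr
      _ = _ := by ring
  have a3 := (abs_le.mp a2).1
  linarith

/-- hypotheses on the pair of labels -/
structure Dat (r u : ℤ × ℤ → ℝ) (K B : ℝ) : Prop where
  k1 : ∀ v i, |r v - r (v + dir i)| ≤ K
  k2 : ∀ v i, |r v + u v - (r (v + dir i) + u (v + dir i))| ≤ K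
  bd : ∀ v, |u v| ≤ B
  eq : ∀ v, th (fun w => r w + u w) v = th r v

lemma tri_ineq {r u : ℤ × ℤ → ℝ} {K B : ℝ} {p q s : ℤ × ℤ} (h : ℤ × ℤ → ℝ) (h0 : ∀ v, 0 ≤ h v)
    (bd : ∀ v, |u v| ≤ B)
    (a1 : |r p - r q| ≤ K) (a2 : |r p - r s| ≤ K) (a3 : |r q - r s| ≤ K)
    (b1 : |r p + u p - (r q + u q)| ≤ K) (b2 : |r p + u p - (r s + u s)| ≤ K)
    (b3 : |r q + u q - (r s + u s)| ≤ K) :
    exp (-K) / 8 * (Hh h u p q + Hh h u q s + Hh h u s p) -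
      B / 2 * (Rr h u p q + Rr h u q s + Rr h u s p) ≤
      - WW r u (fun v => h v ^ 2 * u v) p q s := by
  obtain ⟨c₁, c₂, c₃, ⟨l1, m1⟩, ⟨l2, m2⟩, ⟨l3, m3⟩, he⟩ := tri_mvt K (r p) (r q) (r s) (u p) (u q)
    (u s) (h p ^ 2 * u p) (h q ^ 2 * u q) (h s ^ 2 * u s) a1 a2 a3 b1 b2 b3
  unfold WW dA
  simp only
  rw [he, neg_neg]
  have hc0 : 0 < exp (-K) / 4 := by positivity
  have i1 := pair_ineq c₁ (exp (-K) / 4) B (h p) (h q) (u p) (u q) hc0 l1 m1 (h0 _) (h0 _)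
    (bd p) (bd q)
  have i2 := pair_ineq c₂ (exp (-K) / 4) B (h q) (h s) (u q) (u s) hc0 l2 m2 (h0 _) (h0 _)
    (bd q) (bd s)
  have i3 := pair_ineq c₃ (exp (-K) / 4) B (h s) (h p) (u s) (u p) hc0 l3 m3 (h0 _) (h0 _)
    (bd s) (bd p)
  unfold Hh Rr
  linarith

lemma W2_ineq {r u : ℤ × ℤ → ℝ} {K B : ℝ} (D : Dat r u K B) (h : ℤ × ℤ → ℝ) (h0 : ∀ v, 0 ≤ h v)
    (v : ℤ × ℤ) :
    exp (-K) / 8 * six (Hh h u) v - B / 2 * six (Rr h u) v ≤
      - W2 r u (fun v => h v ^ 2 * u v) v := by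
  have e1 : v + (1, 0) + dir 2 = v + (0, 1) := by rcases v with ⟨n, m⟩; simp [dir]
  have e2 : v + (1, 0) + dir 1 = v + (1, 1) := by rcases v with ⟨n, m⟩; simp [dir]
  have e3 : v + (0, 1) + dir 0 = v + (1, 1) := by rcases v with ⟨n, m⟩; simp [dir]
  have d0 : v + dir 0 = v + (1, 0) := by simp [dir]
  have d1 : v + dir 1 = v + (0, 1) := by simp [dir]
  have x1 := D.k1 v 0
  have x2 := D.k1 v 1
  have x3 := D.k1 (v + (1, 0)) 2
  have x4 := D.k1 (v + (1, 0)) 1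
  have x5 := D.k1 (v + (0, 1)) 0
  have y1 := D.k2 v 0
  have y2 := D.k2 v 1
  have y3 := D.k2 (v + (1, 0)) 2
  have y4 := D.k2 (v + (1, 0)) 1
  have y5 := D.k2 (v + (0, 1)) 0
  rw [d0] at x1 y1
  rw [d1] at x2 y2
  rw [e1] at x3 y3
  rw [e2] at x4 y4
  rw [e3] at x5 y5
  rw [abs_sub_comm] at x5 y5
  have t1 := tri_ineq h h0 D.bd x1 x2 x3 y1 y2 y3
  have t2 := tri_ineq h h0 D.bd x4 x3 x5 y4 y3 y5
  unfold W2 six
  linarith

/-- maximum norm -/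
noncomputable def kap (v : ℤ × ℤ) : ℝ := max |(v.1 : ℝ)| |(v.2 : ℝ)|

/-- cut-off function -/
noncomputable def cut (N : ℕ) (v : ℤ × ℤ) : ℝ := max 0 (min 1 (2 - kap v / N))

/-- box -/
noncomputable def Box (M : ℕ) : Finset (ℤ × ℤ) := Icc (-(M : ℤ)) M ×ˢ Icc (-(M : ℤ)) M

lemma mem_Box {M : ℕ} {v : ℤ × ℤ} : v ∈ Box M ↔ kap v ≤ M := by
  unfold Box kap
  rw [mem_product, mem_Icc, mem_Icc, max_le_iff, abs_le, abs_le]
  constructor
  · rintro ⟨⟨h1, h2⟩, h3, h4⟩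
    exact ⟨⟨by exact_mod_cast h1, by exact_mod_cast h2⟩, by exact_mod_cast h3, by exact_mod_cast h4⟩
  · rintro ⟨⟨h1, h2⟩, h3, h4⟩
    exact ⟨⟨by exact_mod_cast h1, by exact_mod_cast h2⟩, by exact_mod_cast h3, by exact_mod_cast h4⟩

lemma card_Box (M : ℕ) : ((Box M).card : ℝ) = (2 * M + 1) ^ 2 := by
  unfold Box
  rw [card_product, Int.card_Icc]
  have : ((M : ℤ) + 1 - -(M : ℤ)).toNat = 2 * M + 1 := by omega
  rw [this]
  push_cast
  ring

lemma cut_nonneg (N : ℕ) (v : ℤ × ℤ) : 0 ≤ cut N v := le_max_left _ _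

lemma cut_le_one (N : ℕ) (v : ℤ × ℤ) : cut N v ≤ 1 := by
  unfold cut
  exact max_le zero_le_one (min_le_left _ _)

lemma cut_one {N : ℕ} (hN : 1 ≤ N) {v : ℤ × ℤ} (h : kap v ≤ N) : cut N v = 1 := by
  unfold cut
  have hN' : (0:ℝ) < N := by exact_mod_cast hN
  have : kap v / N ≤ 1 := by rw [div_le_one hN']; exact h
  rw [min_eq_left (by linarith)]
  norm_num

lemma cut_zero {N : ℕ} (hN : 1 ≤ N) {v : ℤ × ℤ} (h : 2 * (N:ℝ) ≤ kap v) : cut N v = 0 := by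
  unfold cut
  have hN' : (0:ℝ) < N := by exact_mod_cast hN
  have : 2 ≤ kap v / N := by rw [le_div_iff₀ hN']; exact h
  rw [max_eq_left]
  exact (min_le_right _ _).trans (by linarith)

lemma cut_lip {N : ℕ} (hN : 1 ≤ N) (v w : ℤ × ℤ) : |cut N v - cut N w| ≤ |kap v - kap w| / N := by
  have hN' : (0:ℝ) < N := by exact_mod_cast hN
  unfold cut
  have h1 : |max 0 (min 1 (2 - kap v / N)) - max 0 (min 1 (2 - kap w / N))| ≤
      |min 1 (2 - kap v / N) - min 1 (2 - kap w / N)| := by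
    have := abs_max_sub_max_le_max (0:ℝ) (min 1 (2 - kap v / N)) 0 (min 1 (2 - kap w / N))
    simpa using this
  have h2 : |min 1 (2 - kap v / N) - min 1 (2 - kap w / N)| ≤
      |(2 - kap v / N) - (2 - kap w / N)| := by
    have := abs_min_sub_min_le_max (1:ℝ) (2 - kap v / N) 1 (2 - kap w / N)
    simpa using this
  refine (h1.trans h2).trans (le_of_eq ?_)
  rw [show (2 - kap v / N) - (2 - kap w / N) = -((kap v - kap w) / N) by ring, abs_neg, abs_div,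
    abs_of_pos hN']

lemma kap_lip (v e : ℤ × ℤ) (h1 : |(e.1 : ℝ)| ≤ 1) (h2 : |(e.2 : ℝ)| ≤ 1) :
    |kap (v + e) - kap v| ≤ 1 := by
  unfold kap
  refine (abs_max_sub_max_le_max _ _ _ _).trans (max_le ?_ ?_)
  · refine (abs_abs_sub_abs_le_abs_sub _ _).trans ?_
    simpa using h1
  · refine (abs_abs_sub_abs_le_abs_sub _ _).trans ?_
    simpa using h2

end Pool.Agent.N828.DS
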