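import Pool.Agent.N828.DS.Energy

set_option autoImplicit false

/-! # A Liouville theorem for pairs of packing labels -/

namespace Pool.Agent.N828.DS

open Real Finset Filter Topology

/-- the six pairs are at lattice distance one -/
lemma six_mono {f g : ℤ × ℤ → ℤ × ℤ → ℝ} (v : ℤ × ℤ)
    (h : ∀ p q, |kap p - kap q| ≤ 1 → |kap p - kap v| ≤ 1 → |kap q - kap v| ≤ 1 → f p q ≤ g p q) :
    six f v ≤ six g v := by
  have a1 : |kap (v + (1, 0)) - kap v| ≤ 1 := kap_lip v (1, 0) (by simp) (by simp)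
  have a2 : |kap (v + (0, 1)) - kap v| ≤ 1 := kap_lip v (0, 1) (by simp) (by simp)
  have a3 : |kap (v + (1, 1)) - kap v| ≤ 1 := kap_lip v (1, 1) (by simp) (by simp)
  have a0 : |kap v - kap v| ≤ 1 := by simp
  have b1 : |kap (v + (0, 1)) - kap (v + (1, 0))| ≤ 1 := by
    have := kap_lip (v + (1, 0)) (-1, 1) (by simp) (by simp)
    rwa [show v + (1, 0) + (-1, 1) = v + (0, 1) by rcases v with ⟨n, m⟩; simp] at this
  have b2 : |kap (v + (1, 1)) - kap (v + (1, 0))| ≤ 1 := by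
    have := kap_lip (v + (1, 0)) (0, 1) (by simp) (by simp)
    rwa [show v + (1, 0) + (0, 1) = v + (1, 1) by rcases v with ⟨n, m⟩; simp] at this
  have b3 : |kap (v + (1, 1)) - kap (v + (0, 1))| ≤ 1 := by
    have := kap_lip (v + (0, 1)) (1, 0) (by simp) (by simp)
    rwa [show v + (0, 1) + (1, 0) = v + (1, 1) by rcases v with ⟨n, m⟩; simp] at this
  unfold six
  have c1 := h v (v + (1, 0)) (by rwa [abs_sub_comm]) a0 a1
  have c2 := h (v + (1, 0)) (v + (0, 1)) (by rwa [abs_sub_comm]) a1 a2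
  have c3 := h (v + (0, 1)) v a2 a2 a0
  have c4 := h (v + (1, 0)) (v + (1, 1)) (by rwa [abs_sub_comm]) a1 a3
  have c5 := h (v + (1, 1)) (v + (0, 1)) b3 a3 a2
  have c6 := h (v + (0, 1)) (v + (1, 0)) b1 a2 a1
  linarith

lemma six_add (f g : ℤ × ℤ → ℤ × ℤ → ℝ) (a b : ℝ) (v : ℤ × ℤ) :
    six (fun p q => a * f p q + b * g p q) v = a * six f v + b * six g v := by
  unfold six; ring

lemma six_const (c : ℝ) (v : ℤ × ℤ) : six (fun _ _ => c) v = 6 * c := by
  unfold six; ring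

lemma six_nonneg {f : ℤ × ℤ → ℤ × ℤ → ℝ} (hf : ∀ p q, 0 ≤ f p q) (v : ℤ × ℤ) : 0 ≤ six f v := by
  unfold six
  have := hf v (v + (1, 0))
  have := hf (v + (1, 0)) (v + (0, 1))
  have := hf (v + (0, 1)) v
  have := hf (v + (1, 0)) (v + (1, 1))
  have := hf (v + (1, 1)) (v + (0, 1))
  have := hf (v + (0, 1)) (v + (1, 0))
  linarith

lemma Box_mono {M N : ℕ} (h : M ≤ N) : Box M ⊆ Box N := by
  intro v hv
  rw [mem_Box] at hv ⊢
  exact hv.trans (by exact_mod_cast h)

variable {r u : ℤ × ℤ → ℝ} {K B : ℝ}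

lemma main_ineq (D : Dat r u K B) {N : ℕ} (hN : 1 ≤ N) :
    exp (-K) / 8 * ∑ v ∈ Box (2 * N + 2), six (Hh (cut N) u) v ≤
      B / 2 * ∑ v ∈ Box (2 * N + 2), six (Rr (cut N) u) v := by
  set φ : ℤ × ℤ → ℝ := fun v => cut N v ^ 2 * u v with hφ
  have hz : ∀ v, 2 * (N:ℝ) ≤ kap v → φ v = 0 := fun v hv => by
    simp only [hφ]; rw [cut_zero hN hv]; ring
  have hfin : (Function.support φ).Finite := by
    refine (Box (2 * N)).finite_toSet.subset ?_
    intro v hv
    rw [Finset.mem_coe, mem_Box]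
    by_contra hcon
    push Not at hcon
    apply hv
    apply hz
    push_cast at hcon
    linarith
  have h0 := tsum_W2 r u φ hfin D.eq
  rw [tsum_eq_sum (s := Box (2 * N + 2))] at h0
  · have h1 : ∑ v ∈ Box (2 * N + 2), (exp (-K) / 8 * six (Hh (cut N) u) v -
        B / 2 * six (Rr (cut N) u) v) ≤ ∑ v ∈ Box (2 * N + 2), - W2 r u φ v :=
      sum_le_sum fun v _ => W2_ineq D (cut N) (cut_nonneg N) v
    rw [sum_neg_distrib, h0, sum_sub_distrib, ← mul_sum, ← mul_sum] at h1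
    linarith
  · intro v hv
    rw [mem_Box] at hv
    push Not at hv
    push_cast at hv
    have a1 := (abs_le.mp (kap_lip v (1, 0) (by simp) (by simp))).1
    have a2 := (abs_le.mp (kap_lip v (0, 1) (by simp) (by simp))).1
    have a3 := (abs_le.mp (kap_lip v (1, 1) (by simp) (by simp))).1
    unfold W2 WW
    rw [hz v (by linarith), hz (v + (1, 0)) (by linarith), hz (v + (0, 1)) (by linarith),
      hz (v + (1, 1)) (by linarith)]
    ring

lemma sum_T (N : ℕ) (hN : 1 ≤ N) : ∑ v ∈ Box (2 * N + 2), six (Tt (cut N)) v ≤ 486 := by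
  have hN' : (1:ℝ) ≤ N := by exact_mod_cast hN
  have h1 : ∀ v ∈ Box (2 * N + 2), six (Tt (cut N)) v ≤ 6 * (1 / (N:ℝ) ^ 2) := by
    intro v _
    rw [← six_const _ v]
    apply six_mono
    intro p q h _ _
    unfold Tt
    rw [← sq_abs]
    have h2 := cut_lip hN p q
    have h3 : |cut N p - cut N q| ≤ 1 / N := h2.trans (by gcongr)
    calc |cut N p - cut N q| ^ 2 ≤ (1 / (N:ℝ)) ^ 2 := by gcongr
      _ = _ := by ring
  refine (sum_le_sum h1).trans ?_
  rw [sum_const, nsmul_eq_mul, card_Box]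
  push_cast
  have h2 : (2 * (2 * (N:ℝ) + 2) + 1) ^ 2 ≤ (9 * N) ^ 2 := by
    apply pow_le_pow_left₀ (by positivity)
    linarith
  calc (2 * (2 * (N:ℝ) + 2) + 1) ^ 2 * (6 * (1 / (N:ℝ) ^ 2))
      ≤ (9 * N) ^ 2 * (6 * (1 / (N:ℝ) ^ 2)) := by gcongr
    _ = 486 := by field_simp; norm_num

lemma Hh_nonneg (h u : ℤ × ℤ → ℝ) (p q : ℤ × ℤ) : 0 ≤ Hh h u p q := by unfold Hh; positivity

lemma Dd_nonneg (u : ℤ × ℤ → ℝ) (p q : ℤ × ℤ) : 0 ≤ Dd u p q := by unfold Dd; positivity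

lemma Tt_nonneg (h : ℤ × ℤ → ℝ) (p q : ℤ × ℤ) : 0 ≤ Tt h p q := by unfold Tt; positivity

lemma sum_H (D : Dat r u K B) {N : ℕ} (hN : 1 ≤ N) :
    ∑ v ∈ Box (2 * N + 2), six (Hh (cut N) u) v ≤ B ^ 2 / (2 * (exp (-K) / 8) ^ 2) * 486 := by
  have h1 := main_ineq D hN
  set c := exp (-K) / 8 with hc
  have hc0 : 0 < c := by positivity
  have h2 : ∑ v ∈ Box (2 * N + 2), six (Rr (cut N) u) v * (B / 2) ≤
      ∑ v ∈ Box (2 * N + 2), (c / 2 * six (Hh (cut N) u) v + B ^ 2 / (4 * c) * six (Tt (cut N)) v) := by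
    apply sum_le_sum
    intro v _
    rw [← six_add]
    have : six (Rr (cut N) u) v * (B / 2) = six (fun p q => (B / 2) * Rr (cut N) u p q +
        0 * Rr (cut N) u p q) v := by rw [six_add]; ring
    rw [this]
    apply six_mono
    intro p q _ _ _
    unfold Rr Hh Tt
    have e1 : 0 ≤ cut N p := cut_nonneg N p
    have e2 : 0 ≤ cut N q := cut_nonneg N q
    generalize cut N p = a at *
    generalize cut N q = b at *
    have hx : (a - b) ^ 2 = |a - b| ^ 2 := (sq_abs _).symm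
    have hy : (u p - u q) ^ 2 = |u p - u q| ^ 2 := (sq_abs _).symm
    rw [hx, hy]
    generalize |a - b| = s at *
    generalize |u p - u q| = d at *
    -- (B/2) s (a+b) d ≤ c/2 (a²+b²) d² + B²/(4c) s²
    have h3 : (a + b) ^ 2 ≤ 2 * (a ^ 2 + b ^ 2) := by nlinarith [sq_nonneg (a - b)]
    have h4 : 0 ≤ (c * ((a + b) * d) - B * s) ^ 2 / (4 * c) := by positivity
    have h5 : (c * ((a + b) * d) - B * s) ^ 2 / (4 * c) =
        c / 4 * ((a + b) ^ 2 * d ^ 2) - B / 2 * (s * (a + b) * d) + B ^ 2 / (4 * c) * s ^ 2 := by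
      field_simp
      ring
    have h6 : c / 4 * ((a + b) ^ 2 * d ^ 2) ≤ c / 4 * (2 * (a ^ 2 + b ^ 2) * d ^ 2) := by gcongr
    linarith
  rw [← sum_mul, sum_add_distrib, ← mul_sum, ← mul_sum] at h2
  have h3 := sum_T N hN
  have h4 : B ^ 2 / (4 * c) * ∑ v ∈ Box (2 * N + 2), six (Tt (cut N)) v ≤
      B ^ 2 / (4 * c) * 486 := by gcongr
  have h5 : c / 2 * ∑ v ∈ Box (2 * N + 2), six (Hh (cut N) u) v ≤ B ^ 2 / (4 * c) * 486 := by
    linarith
  have h6 : B ^ 2 / (2 * c ^ 2) * 486 = (2 / c) * (B ^ 2 / (4 * c) * 486) := by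
    field_simp; norm_num
  rw [h6]
  calc ∑ v ∈ Box (2 * N + 2), six (Hh (cut N) u) v
      = (2 / c) * (c / 2 * ∑ v ∈ Box (2 * N + 2), six (Hh (cut N) u) v) := by field_simp
    _ ≤ _ := by gcongr

/-- energy of a box -/
noncomputable def En (u : ℤ × ℤ → ℝ) (N : ℕ) : ℝ := ∑ v ∈ Box N, six (Dd u) v

lemma En_mono (u : ℤ × ℤ → ℝ) : Monotone (En u) := by
  intro M N h
  exact sum_le_sum_of_subset_of_nonneg (Box_mono h) fun v _ _ => six_nonneg (Dd_nonneg u) v

lemma two_En_le {N : ℕ} : 2 * En u N ≤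
    ∑ v ∈ Box (2 * (N + 1) + 2), six (Hh (cut (N + 1)) u) v := by
  have h1 : ∀ v ∈ Box N, 2 * six (Dd u) v ≤ six (Hh (cut (N + 1)) u) v := by
    intro v hv
    rw [mem_Box] at hv
    have e : 2 * six (Dd u) v = six (fun p q => 2 * Dd u p q + 0 * Dd u p q) v := by
      rw [six_add]; ring
    rw [e]
    apply six_mono
    intro p q _ hp hq
    have hp' : kap p ≤ ((N + 1 : ℕ) : ℝ) := by push_cast; linarith [(abs_le.mp hp).2]
    have hq' : kap q ≤ ((N + 1 : ℕ) : ℝ) := by push_cast; linarith [(abs_le.mp hq).2]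
    unfold Hh Dd
    rw [cut_one (by omega) hp', cut_one (by omega) hq']
    apply le_of_eq; ring
  unfold En
  rw [mul_sum]
  refine (sum_le_sum h1).trans ?_
  exact sum_le_sum_of_subset_of_nonneg (Box_mono (by omega))
    fun v _ _ => six_nonneg (Hh_nonneg _ _) v

lemma En_bdd (D : Dat r u K B) (N : ℕ) : En u N ≤ B ^ 2 / (2 * (exp (-K) / 8) ^ 2) * 486 := by
  have h1 := two_En_le (u := u) (N := N)
  have h2 := sum_H D (N := N + 1) (by omega)
  have h3 : 0 ≤ En u N := sum_nonneg fun v _ => six_nonneg (Dd_nonneg u) v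
  linarith

lemma En_diff (D : Dat r u K B) : Tendsto (fun N => En u (2 * (N + 1) + 2) - En u N) atTop (𝓝 0) := by
  have hb : BddAbove (Set.range (En u)) :=
    ⟨B ^ 2 / (2 * (exp (-K) / 8) ^ 2) * 486, by rintro _ ⟨N, rfl⟩; exact En_bdd D N⟩
  have h1 := tendsto_atTop_ciSup (En_mono u) hb
  have h2 : Tendsto (fun N : ℕ => 2 * (N + 1) + 2) atTop atTop :=
    tendsto_atTop_mono (fun n => by show n ≤ _; omega) tendsto_id
  have := (h1.comp h2).sub h1
  simpa using this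

lemma R_bound {N : ℕ} (ε : ℝ) (hε : 0 < ε) :
    ∑ v ∈ Box (2 * (N + 1) + 2), six (Rr (cut (N + 1)) u) v ≤
      ε * 486 + 1 / ε * (En u (2 * (N + 1) + 2) - En u N) := by
  have h1 : ∀ v ∈ Box (2 * (N + 1) + 2), v ∉ Box N → six (Rr (cut (N + 1)) u) v ≤
      ε * six (Tt (cut (N + 1))) v + 1 / ε * six (Dd u) v := by
    intro v _ _
    rw [← six_add]
    apply six_mono
    intro p q _ _ _
    unfold Rr Tt Dd
    have e1 := cut_nonneg (N + 1) p
    have e2 := cut_nonneg (N + 1) q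
    have e3 := cut_le_one (N + 1) p
    have e4 := cut_le_one (N + 1) q
    generalize cut (N + 1) p = a at *
    generalize cut (N + 1) q = b at *
    have hx : (a - b) ^ 2 = |a - b| ^ 2 := (sq_abs _).symm
    have hy : (u p - u q) ^ 2 = |u p - u q| ^ 2 := (sq_abs _).symm
    rw [hx, hy]
    have hs : 0 ≤ |a - b| := abs_nonneg _
    have hd : 0 ≤ |u p - u q| := abs_nonneg _
    generalize |a - b| = s at *
    generalize |u p - u q| = d at *
    have h4 : 0 ≤ (ε * s - d) ^ 2 / ε := by positivity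
    have h5 : (ε * s - d) ^ 2 / ε = ε * s ^ 2 + 1 / ε * d ^ 2 - s * 2 * d := by
      field_simp
      ring
    have h6 : s * (a + b) * d ≤ s * 2 * d := by
      gcongr
      linarith
    linarith
  have h2 : ∀ v ∈ Box N, six (Rr (cut (N + 1)) u) v ≤ 0 := by
    intro v hv
    rw [mem_Box] at hv
    have e : (0:ℝ) = six (fun _ _ => 0) v := by rw [six_const]; ring
    rw [e]
    apply six_mono
    intro p q _ hp hq
    have hp' : kap p ≤ ((N + 1 : ℕ) : ℝ) := by push_cast; linarith [(abs_le.mp hp).2]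
    have hq' : kap q ≤ ((N + 1 : ℕ) : ℝ) := by push_cast; linarith [(abs_le.mp hq).2]
    unfold Rr
    rw [cut_one (by omega) hp', cut_one (by omega) hq']
    simp
  have hsub : Box N ⊆ Box (2 * (N + 1) + 2) := Box_mono (by omega)
  rw [← sum_sdiff hsub]
  have h3 : ∑ v ∈ Box N, six (Rr (cut (N + 1)) u) v ≤ 0 := sum_nonpos h2
  have h4 : ∑ v ∈ Box (2 * (N + 1) + 2) \ Box N, six (Rr (cut (N + 1)) u) v ≤
      ∑ v ∈ Box (2 * (N + 1) + 2) \ Box N,
        (ε * six (Tt (cut (N + 1))) v + 1 / ε * six (Dd u) v) :=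
    sum_le_sum fun v hv => h1 v (mem_sdiff.mp hv).1 (mem_sdiff.mp hv).2
  rw [sum_add_distrib, ← mul_sum, ← mul_sum] at h4
  have h5 : ∑ v ∈ Box (2 * (N + 1) + 2) \ Box N, six (Tt (cut (N + 1))) v ≤ 486 :=
    (sum_le_sum_of_subset_of_nonneg sdiff_subset
      fun v _ _ => six_nonneg (Tt_nonneg _) v).trans (sum_T (N + 1) (by omega))
  have h6 : ∑ v ∈ Box (2 * (N + 1) + 2) \ Box N, six (Dd u) v =
      En u (2 * (N + 1) + 2) - En u N := by
    unfold En
    rw [← sum_sdiff hsub]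
    ring
  rw [h6] at h4
  have h7 : ε * ∑ v ∈ Box (2 * (N + 1) + 2) \ Box N, six (Tt (cut (N + 1))) v ≤ ε * 486 := by
    gcongr
  linarith

/-- **Liouville theorem.** -/
theorem liouville (D : Dat r u K B) (v : ℤ × ℤ) : six (Dd u) v = 0 := by
  have hB : 0 ≤ B := (abs_nonneg _).trans (D.bd 0)
  set c := exp (-K) / 8 with hc
  have hc0 : 0 < c := by positivity
  apply le_antisymm _ (six_nonneg (Dd_nonneg u) v)
  -- for every ε
  have key : ∀ ε : ℝ, 0 < ε → 2 * c * six (Dd u) v ≤ B / 2 * (ε * 486) := by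
    intro ε hε
    have h1 : ∀ᶠ N : ℕ in atTop, 2 * c * six (Dd u) v ≤
        B / 2 * (ε * 486 + 1 / ε * (En u (2 * (N + 1) + 2) - En u N)) := by
      obtain ⟨N₀, hN₀⟩ := exists_nat_ge (kap v)
      filter_upwards [eventually_ge_atTop N₀] with N hN
      have hv : v ∈ Box N := mem_Box.mpr (hN₀.trans (by exact_mod_cast hN))
      have h2 : six (Dd u) v ≤ En u N :=
        single_le_sum (f := fun v => six (Dd u) v)
          (fun w _ => six_nonneg (Dd_nonneg u) w) hv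
      have h3 := two_En_le (u := u) (N := N)
      have h4 := main_ineq D (N := N + 1) (by omega)
      have h5 := R_bound (u := u) (N := N) ε hε
      calc 2 * c * six (Dd u) v ≤ 2 * c * En u N := by gcongr
        _ = c * (2 * En u N) := by ring
        _ ≤ c * ∑ v ∈ Box (2 * (N + 1) + 2), six (Hh (cut (N + 1)) u) v := by gcongr
        _ ≤ B / 2 * ∑ v ∈ Box (2 * (N + 1) + 2), six (Rr (cut (N + 1)) u) v := h4
        _ ≤ _ := by gcongr
    have h2 : Tendsto (fun N : ℕ => B / 2 * (ε * 486 + 1 / ε *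
        (En u (2 * (N + 1) + 2) - En u N))) atTop (𝓝 (B / 2 * (ε * 486 + 1 / ε * 0))) :=
      (((En_diff D).const_mul (1 / ε)).const_add (ε * 486)).const_mul (B / 2)
    have h3 := ge_of_tendsto h2 h1
    simpa using h3
  by_contra hcon
  push Not at hcon
  set s := six (Dd u) v with hs
  have h1 := key (2 * c * s / (243 * (B + 1)) / 2) (by positivity)
  have h2 : B / 2 * (2 * c * s / (243 * (B + 1)) / 2 * 486) = B / (B + 1) * (c * s) := by
    field_simp
    ring
  rw [h2] at h1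
  have h3 : B / (B + 1) ≤ 1 := by rw [div_le_one (by positivity)]; linarith
  have h4 : 0 < c * s := by positivity
  nlinarith

theorem liouville' (D : Dat r u K B) (v : ℤ × ℤ) :
    u (v + (1, 0)) = u v ∧ u (v + (0, 1)) = u v := by
  have h := liouville D v
  unfold six at h
  have a1 := Dd_nonneg u v (v + (1, 0))
  have a2 := Dd_nonneg u (v + (1, 0)) (v + (0, 1))
  have a3 := Dd_nonneg u (v + (0, 1)) v
  have a4 := Dd_nonneg u (v + (1, 0)) (v + (1, 1))
  have a5 := Dd_nonneg u (v + (1, 1)) (v + (0, 1))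
  have a6 := Dd_nonneg u (v + (0, 1)) (v + (1, 0))
  have b1 : Dd u v (v + (1, 0)) = 0 := by linarith
  have b3 : Dd u (v + (0, 1)) v = 0 := by linarith
  unfold Dd at b1 b3
  have c1 := pow_eq_zero_iff (two_ne_zero) |>.mp b1
  have c3 := pow_eq_zero_iff (two_ne_zero) |>.mp b3
  exact ⟨by linarith, by linarith⟩

end Pool.Agent.N828.DS
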