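import Pool.Agent.N828.DS.Angle

set_option autoImplicit false

/-! # The ring lemma for flowers with six petals -/

namespace Pool.Agent.N828.DS

open Real Finset

/-- directions of the petals -/
noncomputable def Psi (a : ℝ) (b : ℕ → ℝ) (n : ℕ) : ℝ := ∑ l ∈ range n, ang a (b l) (b (l + 1))

/-- `b / (a + b)` -/
noncomputable def sg (a : ℝ) (b : ℕ → ℝ) (n : ℕ) : ℝ := b n / (a + b n)

/-- a univalent flower with six petals of radii `b n`, `n` modulo `6` -/
structure Fl (a : ℝ) (b : ℕ → ℝ) : Prop where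
  a0 : 0 < a
  b0 : ∀ n, 0 < b n
  per : ∀ n, b (n + 6) = b n
  sum : Psi a b 6 = 2 * π
  dis : ∀ n m, n % 6 ≠ m % 6 → cos (Psi a b n - Psi a b m) ≤ 1 - 2 * (sg a b n * sg a b m)

variable {a : ℝ} {b : ℕ → ℝ}

lemma sg_pos (h : Fl a b) (n : ℕ) : 0 < sg a b n := by
  have := h.a0
  have := h.b0 n
  unfold sg
  positivity

lemma sg_lt_one (h : Fl a b) (n : ℕ) : sg a b n < 1 := by
  have := h.a0
  have := h.b0 n
  unfold sg
  rw [div_lt_one (by positivity)]
  linarith

lemma ang_eq {a b c : ℝ} (ha : 0 < a) (hb : 0 < b) (hc : 0 < c) :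
    ang a b c = arccos (1 - 2 * (b / (a + b) * (c / (a + c)))) := by
  unfold ang
  congr 1
  have h1 : a + b ≠ 0 := by positivity
  have h2 : a + c ≠ 0 := by positivity
  field_simp
  ring

lemma cos_ang {a b c : ℝ} (ha : 0 < a) (hb : 0 < b) (hc : 0 < c) :
    cos (ang a b c) = 1 - 2 * (b / (a + b) * (c / (a + c))) := by
  rw [ang_eq ha hb hc]
  have h1 : 0 < b / (a + b) * (c / (a + c)) := by positivity
  have h2 : b / (a + b) * (c / (a + c)) < 1 := by
    have : b / (a + b) < 1 := by rw [div_lt_one (by positivity)]; linarith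
    have : c / (a + c) < 1 := by rw [div_lt_one (by positivity)]; linarith
    have : 0 < b / (a + b) := by positivity
    have : 0 < c / (a + c) := by positivity
    nlinarith
  rw [cos_arccos (by linarith) (by linarith)]

lemma ang_nonneg (a b c : ℝ) : 0 ≤ ang a b c := arccos_nonneg _

lemma ang_le_pi (a b c : ℝ) : ang a b c ≤ π := arccos_le_pi _

/-- sine of the half angle -/
lemma sin_half (h : Fl a b) (n : ℕ) :
    sin (ang a (b n) (b (n + 1)) / 2) = √(sg a b n) * √(sg a b (n + 1)) := by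
  have h0 := ang_nonneg a (b n) (b (n + 1))
  have h1 := ang_le_pi a (b n) (b (n + 1))
  have hs : 0 ≤ sin (ang a (b n) (b (n + 1)) / 2) :=
    sin_nonneg_of_nonneg_of_le_pi (by linarith) (by linarith [pi_pos])
  have h2 : sin (ang a (b n) (b (n + 1)) / 2) ^ 2 = sg a b n * sg a b (n + 1) := by
    have h3 := cos_ang h.a0 (h.b0 n) (h.b0 (n + 1))
    have h4 : cos (ang a (b n) (b (n + 1))) =
        1 - 2 * sin (ang a (b n) (b (n + 1)) / 2) ^ 2 := by
      have h5 := cos_two_mul (ang a (b n) (b (n + 1)) / 2)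
      have h6 := sin_sq_add_cos_sq (ang a (b n) (b (n + 1)) / 2)
      rw [show 2 * (ang a (b n) (b (n + 1)) / 2) = ang a (b n) (b (n + 1)) by ring] at h5
      linarith
    unfold sg
    linarith
  rw [← sqrt_mul (sg_pos h n).le, ← h2, sqrt_sq hs]

lemma Psi_succ (a : ℝ) (b : ℕ → ℝ) (n : ℕ) :
    Psi a b (n + 1) = Psi a b n + ang a (b n) (b (n + 1)) := by
  unfold Psi
  rw [sum_range_succ]

lemma abs_sin_add_le (x y : ℝ) : |sin (x + y)| ≤ |sin x| + |sin y| := by
  rw [sin_add]
  calc |sin x * cos y + cos x * sin y| ≤ |sin x * cos y| + |cos x * sin y| := abs_add_le _ _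
    _ = |sin x| * |cos y| + |cos x| * |sin y| := by rw [abs_mul, abs_mul]
    _ ≤ |sin x| * 1 + 1 * |sin y| := by
        gcongr
        · exact abs_cos_le_one y
        · exact abs_cos_le_one x
    _ = _ := by ring

/-- six consecutive angles sum up to `2π` -/
lemma six_sum (h : Fl a b) (i : ℕ) : ∑ k ∈ range 6, ang a (b (i + k)) (b (i + k + 1)) = 2 * π := by
  induction i with
  | zero => simpa [Psi] using h.sum
  | succ i ih =>
    rw [← ih]
    rw [sum_range_succ, sum_range_succ' (n := 5)]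
    have e : ang a (b (i + 1 + 5)) (b (i + 1 + 5 + 1)) = ang a (b (i + 0)) (b (i + 0 + 1)) := by
      rw [show i + 1 + 5 = i + 6 by ring, show i + 6 + 1 = (i + 1) + 6 by ring, h.per, h.per]
      rfl
    rw [e]
    congr 1

/-- one step around the flower -/
lemma step (h : Fl a b) (i : ℕ) (m : ℝ) (hm : 0 < m) (hi : m ≤ sg a b i) :
    2 ≤ √(sg a b (i + 1)) * (1 + 1 / √m) ^ 5 := by
  set y : ℕ → ℝ := fun n => √(sg a b n) with hy
  have y0 : ∀ n, 0 < y n := fun n => sqrt_pos.mpr (sg_pos h n)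
  have y1 : ∀ n, y n ≤ 1 := fun n => by
    rw [hy]; exact sqrt_le_one.mpr (sg_lt_one h n).le
  set q : ℝ := 1 / √m with hq
  have hmu : 0 < √m := sqrt_pos.mpr hm
  have hq0 : 0 < q := by positivity
  have hmi : √m ≤ y i := sqrt_le_sqrt hi
  set P : ℕ → ℝ := fun k => |sin ((Psi a b (i + k) - Psi a b i) / 2)| with hP
  have hstep : ∀ k, P (k + 1) ≤ P k + y (i + k) * y (i + k + 1) := by
    intro k
    have e : (Psi a b (i + (k + 1)) - Psi a b i) / 2 =
        (Psi a b (i + k) - Psi a b i) / 2 + ang a (b (i + k)) (b (i + k + 1)) / 2 := by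
      rw [show i + (k + 1) = (i + k) + 1 by ring, Psi_succ]; ring
    simp only [hP]
    rw [e]
    refine (abs_sin_add_le _ _).trans ?_
    rw [sin_half h (i + k), abs_of_pos (mul_pos (y0 (i + k)) (y0 (i + k + 1)))]
  have hdis : ∀ k, 1 ≤ k → k ≤ 5 → y (i + k) ≤ q * P k := by
    intro k h1 h2
    have h3 := h.dis (i + k) i (by omega)
    have h4 : cos (Psi a b (i + k) - Psi a b i) =
        1 - 2 * sin ((Psi a b (i + k) - Psi a b i) / 2) ^ 2 := by
      have h5 := cos_two_mul ((Psi a b (i + k) - Psi a b i) / 2)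
      have h6 := sin_sq_add_cos_sq ((Psi a b (i + k) - Psi a b i) / 2)
      rw [show 2 * ((Psi a b (i + k) - Psi a b i) / 2) = Psi a b (i + k) - Psi a b i by ring] at h5
      linarith
    have h5 : (y (i + k) * y i) ^ 2 ≤ P k ^ 2 := by
      simp only [hP]
      rw [sq_abs, mul_pow]
      simp only [hy]
      rw [sq_sqrt (sg_pos h _).le, sq_sqrt (sg_pos h _).le]
      linarith
    have h6 : y (i + k) * y i ≤ P k :=
      (pow_le_pow_iff_left₀ (mul_pos (y0 _) (y0 _)).le (abs_nonneg _) (by norm_num)).mp h5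
    have h7 : y (i + k) * √m ≤ P k := by
      refine le_trans ?_ h6
      have := (y0 (i + k)).le
      gcongr
    rw [hq, one_div, inv_mul_eq_div, le_div_iff₀ hmu]
    exact h7
  have hP0 : P 0 = 0 := by simp [hP]
  have hP1 : P 1 ≤ y (i + 1) := by
    have := hstep 0
    rw [hP0] at this
    have h1 := y1 i
    have h2 := (y0 (i + 1)).le
    simp only [zero_add, add_zero] at this
    nlinarith
  have hy' : ∀ k, y (i + k) * y (i + k + 1) ≤ y (i + k) := fun k => by
    have h1 := y1 (i + k + 1)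
    have h2 := (y0 (i + k)).le
    nlinarith
  have hPk : ∀ k, k ≤ 4 → P (k + 1) ≤ y (i + 1) * (1 + q) ^ k := by
    intro k
    induction k with
    | zero => intro _; simpa using hP1
    | succ k ih =>
      intro hk
      have h1 := ih (by omega)
      have h2 := hstep (k + 1)
      have h3 := hy' (k + 1)
      have h4 := hdis (k + 1) (by omega) (by omega)
      calc P (k + 1 + 1) ≤ P (k + 1) + y (i + (k + 1)) := h2.trans (by linarith)
        _ ≤ P (k + 1) + q * P (k + 1) := by linarith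
        _ = P (k + 1) * (1 + q) := by ring
        _ ≤ y (i + 1) * (1 + q) ^ k * (1 + q) := by gcongr
        _ = _ := by ring
  have hyk : ∀ k, k ≤ 4 → y (i + (k + 1)) ≤ q * (y (i + 1) * (1 + q) ^ k) := fun k hk => by
    refine (hdis (k + 1) (by omega) (by omega)).trans ?_
    have := hPk k hk
    gcongr
  -- the sum of the sines
  have hsum : 2 ≤ ∑ k ∈ range 6, y (i + k) * y (i + k + 1) := by
    have h1 : ∀ k, ang a (b (i + k)) (b (i + k + 1)) ≤ π * (y (i + k) * y (i + k + 1)) := by
      intro k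
      have h2 := ang_nonneg a (b (i + k)) (b (i + k + 1))
      have h3 := ang_le_pi a (b (i + k)) (b (i + k + 1))
      have h4 := mul_le_sin (x := ang a (b (i + k)) (b (i + k + 1)) / 2) (by linarith) (by linarith)
      rw [sin_half h (i + k)] at h4
      have h5 : 2 / π * (ang a (b (i + k)) (b (i + k + 1)) / 2) =
        ang a (b (i + k)) (b (i + k + 1)) / π := by ring
      rw [h5, div_le_iff₀ pi_pos] at h4
      simp only [hy]
      linarith
    have h2 := six_sum h i
    have h3 : 2 * π ≤ π * ∑ k ∈ range 6, y (i + k) * y (i + k + 1) := by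
      rw [← h2, mul_sum]
      exact sum_le_sum fun k _ => h1 k
    have := pi_pos
    nlinarith
  have hb0 : y (i + 0) * y (i + 0 + 1) ≤ y (i + 1) := by
    have h1 := y1 i
    have h2 := (y0 (i + 1)).le
    simp only [add_zero]
    nlinarith
  rw [sum_range_succ'] at hsum
  have hbound : ∑ k ∈ range 5, y (i + (k + 1)) * y (i + (k + 1) + 1) ≤
      ∑ k ∈ range 5, q * (y (i + 1) * (1 + q) ^ k) := by
    apply sum_le_sum
    intro k hk
    exact (hy' (k + 1)).trans (hyk k (by have := mem_range.mp hk; omega))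
  have hfin : ∑ k ∈ range 5, q * (y (i + 1) * (1 + q) ^ k) + y (i + 1) =
      y (i + 1) * (1 + q) ^ 5 := by
    simp only [sum_range_succ, sum_range_zero]
    ring
  calc (2:ℝ) ≤ _ := hsum
    _ ≤ ∑ k ∈ range 5, q * (y (i + 1) * (1 + q) ^ k) + y (i + 1) := by linarith
    _ = _ := hfin

lemma sg_per (h : Fl a b) (n : ℕ) : sg a b (n + 6) = sg a b n := by
  unfold sg; rw [h.per]

lemma sg_mod (h : Fl a b) (n : ℕ) : sg a b (n % 6) = sg a b n := by
  have key : ∀ k r, sg a b (r + 6 * k) = sg a b r := by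
    intro k r
    induction k with
    | zero => rfl
    | succ k ih => rw [show r + 6 * (k + 1) = (r + 6 * k) + 6 by ring, sg_per h, ih]
  conv_rhs => rw [← Nat.mod_add_div n 6]
  rw [key]

/-- some petal is large -/
lemma exists_large (h : Fl a b) : ∃ i, 1 / 4 ≤ sg a b i := by
  by_contra hcon
  push Not at hcon
  have h1 : ∀ k, ang a (b (0 + k)) (b (0 + k + 1)) < π / 3 := by
    intro k
    rw [← arccos_cos (ang_nonneg a (b (0 + k)) (b (0 + k + 1))) (ang_le_pi _ _ _),
      show π / 3 = arccos (cos (π / 3)) from (arccos_cos (by positivity) (by linarith [pi_pos])).symm]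
    rw [cos_pi_div_three, cos_ang h.a0 (h.b0 _) (h.b0 _)]
    have h2 := hcon (0 + k)
    have h3 := hcon (0 + k + 1)
    have h4 := sg_pos h (0 + k)
    have h5 := sg_pos h (0 + k + 1)
    unfold sg at h2 h3 h4 h5
    apply arccos_lt_arccos
    · norm_num
    · nlinarith
    · nlinarith
  have h2 := six_sum h 0
  have h3 : ∑ k ∈ range 6, ang a (b (0 + k)) (b (0 + k + 1)) < ∑ _k ∈ range 6, π / 3 :=
    sum_lt_sum_of_nonempty (by simp) fun k _ => h1 k
  rw [h2] at h3
  simp at h3
  linarith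

/-- lower bounds along the flower -/
noncomputable def gg : ℕ → ℝ
  | 0 => 1 / 4
  | n + 1 => min (gg n) ((2 / (1 + 1 / √(gg n)) ^ 5) ^ 2)

lemma gg_pos (n : ℕ) : 0 < gg n := by
  induction n with
  | zero => norm_num [gg]
  | succ n ih =>
    unfold gg
    have := sqrt_pos.mpr ih
    exact lt_min ih (by positivity)

lemma gg_anti {m n : ℕ} (h : m ≤ n) : gg n ≤ gg m := by
  induction n, h using Nat.le_induction with
  | base => exact le_rfl
  | succ n _ ih => exact (show gg (n + 1) ≤ gg n from min_le_left _ _).trans ih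

/-- **Ring lemma.** -/
theorem ring_lemma (h : Fl a b) (j : ℕ) : gg 5 * a ≤ b j := by
  obtain ⟨i, hi⟩ := exists_large h
  have h1 : ∀ k, gg k ≤ sg a b (i + k) := by
    intro k
    induction k with
    | zero => simpa [gg] using hi
    | succ k ih =>
      have h2 := step h (i + k) (gg k) (gg_pos k) ih
      have h3 : 0 < (1 + 1 / √(gg k)) ^ 5 := by
        have := sqrt_pos.mpr (gg_pos k)
        positivity
      rw [← div_le_iff₀ h3] at h2
      refine (min_le_right _ _).trans ?_
      calc (2 / (1 + 1 / √(gg k)) ^ 5) ^ 2 ≤ √(sg a b (i + k + 1)) ^ 2 := by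
            have : 0 < 2 / (1 + 1 / √(gg k)) ^ 5 := by positivity
            gcongr
        _ = sg a b (i + (k + 1)) := by rw [sq_sqrt (sg_pos h _).le]; rfl
  obtain ⟨k, hk, hk'⟩ : ∃ k, k ≤ 5 ∧ (i + k) % 6 = j % 6 := by
    refine ⟨(j % 6 + 6 - i % 6) % 6, by omega, by omega⟩
  have h2 : gg 5 ≤ sg a b j := by
    rw [← sg_mod h j, ← hk', sg_mod h]
    exact (gg_anti hk).trans (h1 k)
  have ha := h.a0
  have hb := h.b0 j
  unfold sg at h2
  rw [le_div_iff₀ (by positivity)] at h2
  nlinarith [gg_pos 5]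

end Pool.Agent.N828.DS
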